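import Pool.Agent.Y18.LC.Stm2
import Pool.Agent.Y447.LC.Gal

/-! LC-FLD2: Galois theory of the composite over a base `M₀` (adapted from `Y447.LC.FLD`) -/

set_option autoImplicit false
set_option linter.all false
set_option maxHeartbeats 4000000
set_option synthInstance.maxHeartbeats 400000

namespace Pool.Agent.Y899.LC

open NumberField IntermediateField Module Pool.Agent.Y447.LC

/-- the base inside `F₀` -/
theorem exists_base {F : Type} [Field F] [NumberField F] (M₀ F₀ : IntermediateField ℚ F) :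
    ∃ E₀ : IntermediateField ℚ F₀, ∀ x : F₀, x ∈ E₀ ↔ (x : F) ∈ M₀ := by
  refine ⟨{ carrier := {x | (x : F) ∈ M₀}
            mul_mem' := fun {a b} ha hb => ?_
            one_mem' := ?_
            add_mem' := fun {a b} ha hb => ?_
            zero_mem' := ?_
            algebraMap_mem' := fun q => ?_
            inv_mem' := fun a ha => ?_ }, fun x => Iff.rfl⟩
  · show ((a * b : F₀) : F) ∈ M₀
    exact M₀.mul_mem ha hb
  · show ((1 : F₀) : F) ∈ M₀
    exact M₀.one_mem
  · show ((a + b : F₀) : F) ∈ M₀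
    exact M₀.add_mem ha hb
  · show ((0 : F₀) : F) ∈ M₀
    exact M₀.zero_mem
  · show ((algebraMap ℚ F₀ q : F₀) : F) ∈ M₀
    have h1 : ((algebraMap ℚ F₀ q : F₀) : F) = algebraMap ℚ F q := by
      rw [eq_ratCast (algebraMap ℚ F₀) q, eq_ratCast (algebraMap ℚ F) q]
      rfl
    rw [h1]
    exact M₀.algebraMap_mem q
  · show ((a⁻¹ : F₀) : F) ∈ M₀
    exact M₀.inv_mem ha

theorem finrank_eq_of {F : Type} [Field F] [NumberField F] (M₀ F₀ : IntermediateField ℚ F)
    (hMF : M₀ ≤ F₀) (E₀ : IntermediateField ℚ F₀) (hE : ∀ x : F₀, x ∈ E₀ ↔ (x : F) ∈ M₀) :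
    finrank ℚ E₀ = finrank ℚ M₀ := by
  let f : M₀ ≃+ E₀ :=
    { toFun := fun x => ⟨⟨x, hMF x.2⟩, (hE _).2 x.2⟩
      invFun := fun x => ⟨x, (hE _).1 x.2⟩
      left_inv := fun x => rfl
      right_inv := fun x => rfl
      map_add' := fun x y => rfl }
  let fl : M₀ ≃ₗ[ℚ] E₀ :=
    { f with map_smul' := fun c x => map_rat_smul f c x }
  exact fl.finrank_eq.symm

theorem fld2 : Pool.Agent.Y18.LC.FLD2 := by
  intro p _ m r k F _ _ _ _ _ M₀ F₀ hMF hG hcomm hexp hfinM hfin htop hMk hpk
  obtain ⟨n, hn, hpn⟩ := hpk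
  have hp : p.Prime := Fact.out
  have hrpos : 0 < p ^ r := pow_pos hp.pos r
  haveI := hG
  haveI hGk : IsGalois k F := gal_comp hG htop
  have hinj := res_inj (k := k) hG htop
  haveI : FiniteDimensional k F := by
    haveI : FiniteDimensional ℚ F := inferInstance
    exact FiniteDimensional.right ℚ k F
  haveI : FiniteDimensional ℚ F₀ := by
    apply FiniteDimensional.of_finrank_pos
    rw [hfin]
    exact pow_pos hp.pos _
  have hfixM : ∀ (g : F ≃ₐ[k] F), ∀ x ∈ M₀, g x = x := by
    intro g x hx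
    obtain ⟨y, rfl⟩ := hMk hx
    exact g.commutes y
  obtain ⟨E₀, hEm⟩ := exists_base M₀ F₀
  have hE₀ : finrank ℚ E₀ = p ^ r := by
    rw [← hfinM]
    exact finrank_eq_of M₀ F₀ hMF E₀ hEm
  have hE₀F : finrank E₀ F₀ = p ^ m := by
    have h1 : finrank ℚ E₀ * finrank E₀ F₀ = finrank ℚ F₀ := finrank_mul_finrank ℚ E₀ F₀
    rw [hE₀, hfin, pow_add] at h1
    exact Nat.eq_of_mul_eq_mul_left hrpos h1
  have hck : Nat.card (F ≃ₐ[k] F) = finrank k F := IsGalois.card_aut_eq_finrank k F
  have hdvd : Nat.card (F ≃ₐ[k] F) ∣ p ^ m := by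
    rw [← hE₀F, ← IsGalois.card_fixingSubgroup_eq_finrank E₀]
    have hmem : ∀ g, res k F₀ hG g ∈ fixingSubgroup E₀ := by
      intro g
      rw [IntermediateField.mem_fixingSubgroup_iff]
      intro x hx
      exact Subtype.ext (hfixM g x ((hEm x).1 hx))
    refine Subgroup.card_dvd_of_injective ((res k F₀ hG).codRestrict (fixingSubgroup E₀) hmem) ?_
    intro g h hgh
    apply hinj
    exact congrArg Subtype.val hgh
  have hm1 : finrank ℚ k * finrank k F = finrank ℚ F := finrank_mul_finrank ℚ k F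
  have hm2 : finrank ℚ F₀ * finrank F₀ F = finrank ℚ F := finrank_mul_finrank ℚ F₀ F
  have hm3 : n * finrank k F = p ^ m * finrank F₀ F := by
    have h1 : p ^ r * (n * finrank k F) = p ^ r * (p ^ m * finrank F₀ F) := by
      rw [← mul_assoc, ← mul_assoc, ← pow_add, ← hfin, hm2, ← hm1, hn, mul_comm n]
    exact Nat.eq_of_mul_eq_mul_left hrpos h1
  have hcop : Nat.Coprime (p ^ m) n :=
    Nat.Coprime.pow_left _ ((Nat.Prime.coprime_iff_not_dvd hp).2 hpn)
  have hdvd2 : p ^ m ∣ finrank k F := by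
    apply hcop.dvd_of_dvd_mul_left
    rw [hm3]
    exact Dvd.intro _ rfl
  have hcard : Nat.card (F ≃ₐ[k] F) = p ^ m := by
    apply Nat.dvd_antisymm hdvd
    rw [hck]; exact hdvd2
  have hfk : finrank k F = p ^ m := by rw [← hck, hcard]
  have hff : finrank F₀ F = n := by
    rw [hfk, mul_comm n] at hm3
    exact (Nat.eq_of_mul_eq_mul_left (pow_pos hp.pos m) hm3).symm
  refine ⟨hGk, ?_, ?_, hcard, fun g x hx => map_mem hG g hx, by rw [hff]; exact hpn, ?_⟩
  · intro g h
    apply hinj
    rw [map_mul, map_mul, hcomm]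
  · intro g
    apply hinj
    rw [map_pow, hexp, map_one]
  · intro H hH
    let r' := res k F₀ hG
    let E₁ : IntermediateField ℚ F₀ := fixedField (H.map r')
    have hE₁ : finrank ℚ E₁ = p ^ (r + 1) := by
      have h1 : finrank E₁ F₀ = Nat.card (H.map r') := finrank_fixedField_eq_card _
      have h2 : finrank ℚ E₁ * finrank E₁ F₀ = finrank ℚ F₀ := finrank_mul_finrank ℚ E₁ F₀
      have h3 : Nat.card (H.map r') = Nat.card H := Nat.card_congr
        (Subgroup.equivMapOfInjective H r' hinj).toEquiv.symm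
      have h4 : Nat.card H * H.index = p ^ m := by rw [← hcard]; exact Subgroup.card_mul_index H
      have h5 : p ^ (r + m) = p ^ (r + 1) * Nat.card H := by
        rw [pow_add, ← h4, hH, pow_succ]
        ring
      rw [h1, h3, hfin, h5] at h2
      haveI : Finite H := inferInstance
      exact Nat.eq_of_mul_eq_mul_right Nat.card_pos h2
    have hmemE : ∀ x : F₀, x ∈ E₁ ↔ ∀ g ∈ H, g (x : F) = x := by
      intro x
      rw [mem_fixedField_iff]
      constructor
      · intro h g hg
        have h1 := h (r' g) ⟨g, hg, rfl⟩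
        have h2 := congrArg (fun z : F₀ => (z : F)) h1
        exact h2
      · rintro h _ ⟨g, hg, rfl⟩
        exact Subtype.ext (h g hg)
    let L₀ : IntermediateField ℚ F := F₀ ⊓ (fixedField H).restrictScalars ℚ
    have hmemL : ∀ x : F, x ∈ L₀ ↔ x ∈ F₀ ∧ ∀ g ∈ H, g x = x := by
      intro x
      constructor
      · intro hx
        exact ⟨(mem_inf.1 hx).1, (mem_fixedField_iff H x).1 (mem_inf.1 hx).2⟩
      · rintro ⟨h1, h2⟩
        exact mem_inf.2 ⟨h1, (mem_fixedField_iff H x).2 h2⟩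
    refine ⟨L₀, ?_, inf_le_left, ?_, ?_, ?_⟩
    · intro x hx
      exact (hmemL x).2 ⟨hMF hx, fun g _ => hfixM g x hx⟩
    · rw [← hE₁]
      exact (finrank_eq_of L₀ F₀ inf_le_left E₁ (fun x => by
        rw [hmemE, hmemL]
        exact ⟨fun h => ⟨x.2, h⟩, fun h => h.2⟩)).symm
    · intro g
      constructor
      · intro hg x hx
        exact ((hmemL x).1 hx).2 g hg
      · intro hg
        have h1 : r' g ∈ fixingSubgroup E₁ := by
          rw [IntermediateField.mem_fixingSubgroup_iff]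
          intro x hx
          apply Subtype.ext
          exact hg x ((hmemL x).2 ⟨x.2, (hmemE x).1 hx⟩)
        rw [fixingSubgroup_fixedField] at h1
        obtain ⟨g', hg', h2⟩ := h1
        rwa [← hinj h2]
    · intro x hx hfx
      exact (hmemL x).2 ⟨hx, (mem_fixedField_iff H x).1 hfx⟩

end Pool.Agent.Y899.LC
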